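import Pool.Agent.Y706.CH.Stm

/-!
# CH-LUP (job 7554, helper779 for helper706): upper bound for the Lyapunov exponent
-/

set_option autoImplicit false

namespace Pool.Agent.Y779.CH

open Pool.Agent.W277.UB Pool.Agent.W277.UG Pool.Agent.W277.UH Finset Polynomial
open Pool.Agent.Y706.BI (UV eqv fU hh G0 gg rt Av nrm_spec rt_spec)
open Pool.Agent.Y706.CH

universe u

theorem t_LUP : S_GRN2.{u} → S_LUP.{u} := by
  classical
  intro hG Ω _ _ _ hnat T hgs hd D
  obtain ⟨hR0, -, hG0, -, -, -, -, -, -, hgl⟩ := hG Ω hnat T hgs hd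
  obtain ⟨B, -⟩ := exists_fam (Ω := Ω) hnat
  obtain ⟨E, hE⟩ := bad_finite B (Finset.univ.image fun i => (D.c i).1) (by
    intro U hU
    rw [Finset.mem_image] at hU
    obtain ⟨i, _, rfl⟩ := hU
    exact (D.c i).2)
  obtain ⟨i₀, hi₀⟩ := Infinite.exists_notMem_finset E
  have hX : ∀ i, ‖wd (B.b i₀) (D.c i).1‖ = 1 := fun i =>
    hE i₀ hi₀ _ (Finset.mem_image_of_mem _ (Finset.mem_univ i))
  set X : UV Ω := ⟨B.b i₀, B.unit i₀⟩ with hXdef
  set Y : UV Ω := fU T X with hY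
  have hself : ∀ A : Ω × Ω, wd A A = 0 := by
    intro A
    unfold wd
    ring
  have hYY : eqv (fU T X) Y := hself _
  obtain ⟨l₀, hl₀⟩ : ∃ l₀ : Fin T.d, eqv X (rt T Y l₀) := by
    obtain ⟨hc, -, h1, -⟩ := rt_spec T Y
    obtain ⟨t, ht, h2, -⟩ := nrm_spec (T.F X.1) (T.nz X.1 X.ne)
    have h3 : wd (T.F X.1) Y.1 = 0 := by
      rw [h2]
      show wd (t • Y.1) Y.1 = 0
      unfold wd
      simp only [Prod.smul_fst, Prod.smul_snd, smul_eq_mul]
      ring
    rw [h1, mul_eq_zero] at h3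
    rcases h3 with h3 | h3
    · exact absurd h3 hc
    · obtain ⟨l, -, hl⟩ := Finset.prod_eq_zero_iff.1 h3
      exact ⟨l, hl⟩
  have hnc : ∀ i, ¬ eqv X (D.c i) := by
    intro i h
    have h1 := hX i
    have h2 : wd (B.b i₀) (D.c i).1 = 0 := h
    rw [h2, norm_zero] at h1
    exact zero_ne_one h1
  obtain ⟨hne, hsum⟩ := D.hE X Y l₀ hYY hl₀ hnc
  have hd' : (2 : ℝ) ≤ T.d := by exact_mod_cast hd
  have h1 : ∑ i, gg T X (D.c i) ≤ (2 * (T.d : ℝ) - 2) * (T.Res / (T.d * ((T.d : ℝ) - 1))) := by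
    have e : ∀ i, gg T X (D.c i) ≤ T.Res / (T.d * ((T.d : ℝ) - 1)) := by
      intro i
      unfold gg
      have e1 : ‖wd X.1 (D.c i).1‖ = 1 := hX i
      rw [e1, Real.log_one]
      have e2 := (hG0 X).2
      have e3 := (hG0 (D.c i)).2
      linarith
    refine (Finset.sum_le_card_nsmul _ _ _ fun i _ => e i).trans (le_of_eq ?_)
    rw [Finset.card_univ, Fintype.card_fin, nsmul_eq_mul]
    congr 1
    rw [Nat.cast_sub (by omega)]
    push_cast
    ring
  have h2 : -(((T.d : ℝ) - 1) * (2 * T.Res)) ≤ ∑ l ∈ univ.erase l₀, gg T X (rt T Y l) := by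
    have e : ∀ l ∈ univ.erase l₀, -(2 * T.Res) ≤ gg T X (rt T Y l) := fun l hl =>
      hgl _ _ (hne l (Finset.ne_of_mem_erase hl))
    refine le_trans (le_of_eq ?_) (Finset.card_nsmul_le_sum _ _ _ e)
    rw [Finset.card_erase_of_mem (Finset.mem_univ _), Finset.card_univ, Fintype.card_fin,
      nsmul_eq_mul, Nat.cast_sub (by omega)]
    push_cast
    ring
  have h3 : (2 * (T.d : ℝ) - 2) * (T.Res / (T.d * ((T.d : ℝ) - 1))) = 2 * T.Res / T.d := by
    have e1 : (T.d : ℝ) - 1 ≠ 0 := by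
      intro h
      linarith
    have e2 : (T.d : ℝ) ≠ 0 := by
      intro h
      linarith
    field_simp
  have h4 : 2 * T.Res / T.d ≤ T.Res := by
    rw [div_le_iff₀ (by linarith)]
    nlinarith
  rw [h3] at h1
  have h5 : D.L = ∑ i, gg T X (D.c i) - ∑ l ∈ univ.erase l₀, gg T X (rt T Y l) := by
    rw [hsum]
    ring
  rw [h5]
  nlinarith

end Pool.Agent.Y779.CH
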